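import Pool.Agent.Run7.h560.AP.Forms2

set_option autoImplicit false

/-!
# Primes and almost primes `q k + a` with multipliers `k` given by their digits
-/

namespace Pool.Agent.Results.MP_2f88e5_nt.DigitMultipliers

open Finset
open Pool.Agent.Run7.h560.AP

lemma rho_one (q a p : ℕ) (hp : p.Prime) (hqa : Nat.Coprime q a) : rho ![(q : ℤ)] ![(a : ℤ)] p = if p ∣ q then 0 else 1 := by
  classical
  split_ifs with h
  · unfold rho
    rw [card_eq_zero, filter_eq_empty_iff]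
    intro n _ hd
    rw [Fin.prod_univ_one] at hd
    simp only [Matrix.cons_val_zero] at hd
    have h1 : (p : ℤ) ∣ (q : ℤ) * n := (Int.natCast_dvd_natCast.2 h).mul_right _
    have h2 : (p : ℤ) ∣ a := (dvd_add_right h1).1 hd
    have h3 : p ∣ a := Int.natCast_dvd_natCast.1 h2
    exact Nat.not_coprime_of_dvd_of_dvd hp.one_lt h h3 hqa
  · apply rho_full _ _ _ p hp
    · intro i
      fin_cases i
      simpa [Int.natCast_dvd_natCast] using h
    · intro i j hij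
      exact absurd (Subsingleton.elim i j) hij
    · intro i
      fin_cases i
      exact Nat.isCoprime_iff_coprime.2 hqa

lemma prod_one (q a x : ℕ) (hqa : Nat.Coprime q a) :
    ∏ p ∈ (range (x + 1)).filter Nat.Prime, (1 - (rho ![(q : ℤ)] ![(a : ℤ)] p : ℝ) / p) = Vp x * Am x q := by
  classical
  have h1 : ∏ p ∈ (range (x + 1)).filter Nat.Prime, (1 - (rho ![(q : ℤ)] ![(a : ℤ)] p : ℝ) / p) =
      ∏ p ∈ prs x, (1 - (rho ![(q : ℤ)] ![(a : ℤ)] p : ℝ) / p) := rfl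
  rw [h1]
  unfold Vp Am
  rw [prod_filter, ← prod_mul_distrib]
  apply prod_congr rfl
  intro p hp
  obtain ⟨a1, a2⟩ := prs_half x p hp
  rw [rho_one q a p ((mem_prs x p).1 hp).2 hqa]
  split_ifs with h
  · have : (1 - 1 / (p : ℝ)) ≠ 0 := by
      have : (0 : ℝ) < 1 - 1 / (p : ℝ) := by linarith
      exact this.ne'
    rw [Nat.cast_zero, zero_div, sub_zero, mul_inv_cancel₀ this]
  · rw [Nat.cast_one, mul_one]

lemma adm (q a : ℕ) (hqa : Nat.Coprime q a) (p : ℕ) (hp : p.Prime) : rho ![(q : ℤ)] ![(a : ℤ)] p < p := by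
  rw [rho_one q a p hp hqa]
  have := hp.two_le
  split_ifs <;> omega

lemma Am_nonneg (x q : ℕ) : 0 ≤ Am x q := by
  unfold Am
  apply prod_nonneg
  intro p hp
  obtain ⟨a1, a2⟩ := prs_half x p (mem_filter.1 hp).1
  exact inv_nonneg.2 (by linarith)

theorem upper {σ : Type} [Fintype σ] (b : ℕ) (hb : 2 ≤ b) (M : DFA ℕ σ)
    (hS : ∀ k : ℕ, ∃ᶠ N : ℕ in Filter.atTop, Real.log N ^ k < (cnt b M N (fun _ => True) : ℝ)) :
    ∃ (C : ℝ) (x₀ : ℕ), 0 < C ∧ ∀ x : ℕ, x₀ ≤ x → ∀ q a : ℕ, 1 ≤ q → Nat.Coprime q a →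
      (cnt b M x (fun k => (q * k + a).Prime) : ℝ) ≤ C * cnt b M x (fun _ => True) * ((q : ℝ) / Nat.totient q) / Real.log x := by
  obtain ⟨C, N₀, hC, h⟩ := sys_upper b hb M hS 1
  obtain ⟨K, hK, hV⟩ := Vp_bounds
  refine ⟨C * K, N₀ + 2, by positivity, fun x hx q a hq hqa => ?_⟩
  have h1 := h x (by omega) ![(q : ℤ)] ![(a : ℤ)] (by
    intro i
    fin_cases i
    refine ⟨?_, Nat.isCoprime_iff_coprime.2 hqa⟩
    show (q : ℤ) ≠ 0
    omega) (fun p hp => adm q a hqa p hp)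
  rw [prod_one q a x hqa] at h1
  have h2 := (Am_bounds x q 0 (by omega) hq).1
  have h3 := (hV x (by omega)).2
  have h4 := Am_nonneg x q
  have hx1 : (2 : ℝ) ≤ x := by exact_mod_cast (by omega : 2 ≤ x)
  have hlog : 0 < Real.log x := Real.log_pos (by linarith)
  have h5 : (cnt b M x (fun k => (q * k + a).Prime) : ℝ) ≤ cnt b M x (fun n => ∀ i : Fin 1, ((![(q : ℤ)] : Fin 1 → ℤ) i * n + (![(a : ℤ)] : Fin 1 → ℤ) i).natAbs.Prime) := by
    rw [Nat.cast_le]
    apply cnt_mono b M le_rfl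
    intro n _ hn i
    fin_cases i
    show ((q : ℤ) * n + a).natAbs.Prime
    have e : ((q : ℤ) * n + a) = ((q * n + a : ℕ) : ℤ) := by push_cast; ring
    rw [e, Int.natAbs_natCast]
    exact hn
  refine h5.trans (h1.trans ?_)
  calc C * (cnt b M x (fun _ => True) : ℝ) * (Vp x * Am x q) ≤ C * (cnt b M x (fun _ => True) : ℝ) * (K / Real.log x * ((q : ℝ) / Nat.totient q)) := by
        apply mul_le_mul_of_nonneg_left _ (by positivity)
        exact mul_le_mul h3 h2 h4 (by positivity)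
    _ = _ := by ring

theorem lower (b : ℕ) (hb : 2 ≤ b) (S : Finset ℕ) (h0 : 0 ∈ S) (h1 : 1 ∈ S) (D : ℕ) :
    ∃ (R : ℕ) (η c : ℝ) (x₀ : ℕ), 0 < η ∧ 0 < c ∧ ∀ x : ℕ, x₀ ≤ x → ∀ q a : ℕ, 1 ≤ q → q ≤ x ^ D → a ≤ x ^ D →
      Nat.Coprime q a → (∃ e ∈ S, e < b ∧ Nat.Coprime (q * e + a) b) →
      c * cnt b (dfa S) x (fun _ => True) * ((q : ℝ) / Nat.totient q) / Real.log x ≤
        cnt b (dfa S) x (fun k => Almost R ((x : ℝ) ^ η) (q * k + a)) := by
  obtain ⟨R, η, c₀, N₀, hη, hc₀, h⟩ := digits_lower b hb S h0 h1 1 D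
  obtain ⟨K, hK, hV⟩ := Vp_bounds
  refine ⟨R, η, c₀ * (1 / K) * (1 / 2 ^ D), N₀ + 2, hη, by positivity, fun x hx q a hq hqD haD hqa he => ?_⟩
  obtain ⟨e, heS, heb, he1⟩ := he
  have h2 := h x (by omega) ![(q : ℤ)] ![(a : ℤ)] (by
    intro i
    fin_cases i
    exact Nat.isCoprime_iff_coprime.2 hqa) (by
    intro i
    fin_cases i
    refine ⟨?_, ?_⟩
    · show (q : ℤ).natAbs ≤ x ^ D
      rw [Int.natAbs_natCast]
      exact hqD
    · show (a : ℤ).natAbs ≤ x ^ D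
      rw [Int.natAbs_natCast]
      exact haD) (fun p hp _ => adm q a hqa p hp) ⟨e, heS, heb, by
    intro i
    fin_cases i
    show IsCoprime ((q : ℤ) * e + a) (b : ℤ)
    have e1 : ((q : ℤ) * e + a) = ((q * e + a : ℕ) : ℤ) := by push_cast; ring
    rw [e1]
    exact Nat.isCoprime_iff_coprime.2 he1⟩
  rw [prod_one q a x hqa] at h2
  have h3 := (Am_bounds x q D (by omega) hq).2 hqD
  have h4 := (hV x (by omega)).1
  have hx1 : (2 : ℝ) ≤ x := by exact_mod_cast (by omega : 2 ≤ x)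
  have hlog : 0 < Real.log x := Real.log_pos (by linarith)
  have h5 : 1 / 2 ^ D * ((q : ℝ) / Nat.totient q) ≤ Am x q := by
    rw [one_div, inv_mul_le_iff₀ (by positivity)]
    exact h3
  have h6 : (cnt b (dfa S) x (fun n => ∀ i : Fin 1, (![(q : ℤ)] : Fin 1 → ℤ) i * n + (![(a : ℤ)] : Fin 1 → ℤ) i ≠ 0 ∧
      ((![(q : ℤ)] : Fin 1 → ℤ) i * n + (![(a : ℤ)] : Fin 1 → ℤ) i).natAbs.primeFactorsList.length ≤ R ∧
        ∀ p : ℕ, p.Prime → (p : ℤ) ∣ (![(q : ℤ)] : Fin 1 → ℤ) i * n + (![(a : ℤ)] : Fin 1 → ℤ) i → (x : ℝ) ^ η < p) : ℝ) ≤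
      cnt b (dfa S) x (fun k => Almost R ((x : ℝ) ^ η) (q * k + a)) := by
    rw [Nat.cast_le]
    apply cnt_mono b (dfa S) le_rfl
    intro n _ hn
    obtain ⟨b1, b2, b3⟩ := hn 0
    have e1 : (![(q : ℤ)] : Fin 1 → ℤ) 0 * (n : ℤ) + (![(a : ℤ)] : Fin 1 → ℤ) 0 = ((q * n + a : ℕ) : ℤ) := by
      show (q : ℤ) * n + a = _
      push_cast
      ring
    rw [e1] at b1 b2 b3
    rw [Int.natAbs_natCast] at b2
    exact ⟨by exact_mod_cast b1, b2, fun p hp hpd => b3 p hp (Int.natCast_dvd_natCast.2 hpd)⟩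
  refine le_trans ?_ (h2.trans h6)
  calc c₀ * (1 / K) * (1 / 2 ^ D) * (cnt b (dfa S) x (fun _ => True) : ℝ) * ((q : ℝ) / Nat.totient q) / Real.log x =
      c₀ * (cnt b (dfa S) x (fun _ => True) : ℝ) * (1 / (K * Real.log x) * (1 / 2 ^ D * ((q : ℝ) / Nat.totient q))) := by
        field_simp
    _ ≤ c₀ * (cnt b (dfa S) x (fun _ => True) : ℝ) * (Vp x * Am x q) := by
        apply mul_le_mul_of_nonneg_left _ (by positivity)
        exact mul_le_mul h4 h5 (by positivity) (le_trans (by positivity) h4)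

/-- **Main theorem.** -/
theorem result :
    (∀ b : ℕ, 2 ≤ b → ∀ (σ : Type) [Fintype σ] (M : DFA ℕ σ), NonSparse (autoSet b M) →
      ∃ (C : ℝ) (x₀ : ℕ), 0 < C ∧ ∀ x : ℕ, x₀ ≤ x → ∀ q a : ℕ, 1 ≤ q → Nat.Coprime q a →
        (Set.ncard {k : ℕ | k ∈ autoSet b M ∧ k < x ∧ (q * k + a).Prime} : ℝ) ≤
          C * below (autoSet b M) x * ((q : ℝ) / Nat.totient q) / Real.log x) ∧
    (∀ b : ℕ, 2 ≤ b → ∀ S : Finset ℕ, 0 ∈ S → 1 ∈ S → ∀ D : ℕ, ∃ (R : ℕ) (η c : ℝ) (x₀ : ℕ), 0 < η ∧ 0 < c ∧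
      ∀ x : ℕ, x₀ ≤ x → ∀ q a : ℕ, 1 ≤ q → q ≤ x ^ D → a ≤ x ^ D → Nat.Coprime q a →
      (∃ e ∈ S, e < b ∧ Nat.Coprime (q * e + a) b) →
        c * below (digitSet b S) x * ((q : ℝ) / Nat.totient q) / Real.log x ≤
          (Set.ncard {k : ℕ | k ∈ digitSet b S ∧ k < x ∧ Almost R ((x : ℝ) ^ η) (q * k + a)} : ℝ)) ∧
    (∀ b : ℕ, 2 ≤ b → ∀ S : Finset ℕ, 0 ∈ S → 1 ∈ S → ∃ (R : ℕ) (η c C : ℝ) (p₀ : ℕ), 0 < η ∧ 0 < c ∧ 0 < C ∧
      ∀ p : ℕ, p₀ ≤ p → p.Prime →
        (Set.ncard {k : ℕ | k ∈ digitSet b S ∧ (1 ≤ k ∧ k < 2 * (p + 1) ∧ ¬ p ∣ k) ∧ (2 * k * p + 1).Prime} : ℝ) ≤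
          C * below (digitSet b S) (2 * (p + 1)) / Real.log p ∧
        c * below (digitSet b S) (2 * (p + 1)) / Real.log p ≤
          (Set.ncard {k : ℕ | k ∈ digitSet b S ∧ (1 ≤ k ∧ k < 2 * (p + 1) ∧ ¬ p ∣ k) ∧
            Almost R ((p : ℝ) ^ η) (2 * k * p + 1)} : ℝ)) := by
  classical
  refine ⟨fun b hb σ _ M hM => ?_, fun b hb S h0 h1 D => ?_, fun b hb S h0 h1 => ?_⟩
  · obtain ⟨C, x₀, hC, h⟩ := upper b hb M (nonsparse b M hM)
    refine ⟨C, x₀, hC, fun x hx q a hq hqa => ?_⟩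
    rw [below_cnt]
    refine le_trans ?_ (h x hx q a hq hqa)
    rw [Nat.cast_le]
    apply ncard_le_cnt
    exact fun k hk => hk
  · obtain ⟨R, η, c, x₀, hη, hc, h⟩ := lower b hb S h0 h1 D
    refine ⟨R, η, c, x₀, hη, hc, fun x hx q a hq hqD haD hqa he => ?_⟩
    rw [digit_auto, below_cnt]
    refine (h x hx q a hq hqD haD hqa he).trans ?_
    rw [Nat.cast_le]
    have h3 := cnt_le_ncard b (dfa S) x (fun k => Almost R ((x : ℝ) ^ η) (q * k + a))
      {k : ℕ | k ∈ autoSet b (dfa S) ∧ k < x ∧ Almost R ((x : ℝ) ^ η) (q * k + a)}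
      (fin_lt x _ (fun n hn => hn.2.1)) ∅ (fun n a1 a2 a3 => Or.inl ⟨a1, a2, a3⟩)
    rw [card_empty, add_zero] at h3
    exact h3
  · obtain ⟨C, x₀, hC, hup⟩ := upper b hb (dfa S) (digits_growth b hb S h0 h1)
    obtain ⟨R, η, c, x₁, hη, hc, hlow⟩ := lower b hb S h0 h1 1
    obtain ⟨x₂, hlarge⟩ := main_large b hb S h0 h1 1 c hc 6 (by norm_num)
    refine ⟨R, η, c / 4, C * 4, x₀ + x₁ + x₂ + 3, hη, by positivity, by positivity, fun p hp hpp => ?_⟩
    have hp3 : (3 : ℝ) ≤ p := by exact_mod_cast (by omega : 3 ≤ p)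
    have hlp : 0 < Real.log p := Real.log_pos (by linarith)
    have hl1 : Real.log p ≤ Real.log (2 * (p + 1) : ℕ) := by
      apply Real.log_le_log (by linarith)
      push_cast
      linarith
    have hl2 : Real.log (2 * (p + 1) : ℕ) ≤ 2 * Real.log p := by
      have e1 : (2 : ℝ) * Real.log p = Real.log ((p : ℝ) ^ 2) := by rw [Real.log_pow]; norm_num
      rw [e1]
      apply Real.log_le_log (by positivity)
      push_cast
      nlinarith
    have hl0 : 0 < Real.log (2 * (p + 1) : ℕ) := by linarith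
    have hcop : Nat.Coprime (2 * p) 1 := Nat.coprime_one_right _
    have htot : Nat.totient (2 * p) = p - 1 := by
      have hc2 : Nat.Coprime 2 p := (Nat.coprime_primes Nat.prime_two hpp).2 (by omega)
      rw [Nat.totient_mul hc2, Nat.totient_two, one_mul, Nat.totient_prime hpp]
    obtain ⟨ra, hra⟩ : ∃ ra : ℝ, ra = ((2 * p : ℕ) : ℝ) / Nat.totient (2 * p) := ⟨_, rfl⟩
    have hra1 : 1 ≤ ra := by rw [hra]; exact one_le_ratio _ (by omega)
    have hra4 : ra ≤ 4 := by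
      rw [hra, htot, Nat.cast_sub (by omega)]
      push_cast
      rw [div_le_iff₀ (by linarith)]
      linarith
    obtain ⟨X, hX⟩ : ∃ X, X = 2 * (p + 1) := ⟨_, rfl⟩
    rw [← hX] at hl1 hl2 hl0
    have h2 := hup X (by omega) (2 * p) 1 (by omega) hcop
    have h3 := hlow X (by omega) (2 * p) 1 (by omega) (by rw [pow_one]; omega) (by rw [pow_one]; omega) hcop
      ⟨0, h0, by omega, by rw [mul_zero, zero_add]; exact Nat.coprime_one_left b⟩
    rw [← hra] at h2 h3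
    rw [← hX, digit_auto, below_cnt]
    obtain ⟨x, hx⟩ : ∃ x : ℝ, x = cnt b (dfa S) X (fun _ => True) := ⟨_, rfl⟩
    have hx0 : 0 ≤ x := by rw [hx]; positivity
    have h4 := hlarge X (by omega)
    rw [pow_one] at h4
    rw [← hx] at h2 h3 h4 ⊢
    constructor
    · have h5 : (Set.ncard {k : ℕ | k ∈ autoSet b (dfa S) ∧ (1 ≤ k ∧ k < X ∧ ¬ p ∣ k) ∧ (2 * k * p + 1).Prime} : ℝ) ≤
          cnt b (dfa S) X (fun k => (2 * p * k + 1).Prime) := by
        rw [Nat.cast_le]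
        apply ncard_le_cnt
        rintro k ⟨a1, a2, a3⟩
        refine ⟨a1, a2.2.1, ?_⟩
        have e1 : 2 * p * k + 1 = 2 * k * p + 1 := by ring
        rw [e1]
        exact a3
      refine h5.trans (h2.trans ?_)
      calc C * x * ra / Real.log X ≤ C * x * 4 / Real.log X := by
            apply div_le_div_of_nonneg_right _ hl0.le
            exact mul_le_mul_of_nonneg_left hra4 (by positivity)
        _ ≤ C * x * 4 / Real.log p := div_le_div_of_nonneg_left (by positivity) hlp hl1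
        _ = _ := by ring
    · have h5 := cnt_le_ncard b (dfa S) X (fun k => Almost R ((X : ℝ) ^ η) (2 * p * k + 1))
        {k : ℕ | k ∈ autoSet b (dfa S) ∧ (1 ≤ k ∧ k < X ∧ ¬ p ∣ k) ∧ Almost R ((p : ℝ) ^ η) (2 * k * p + 1)}
        (fin_lt X _ (fun n hn => hn.2.1.2.1)) ({0, p, 2 * p} : Finset ℕ) (by
        rintro k a1 a2 ⟨a3, a4, a5⟩
        by_cases hk : k ∈ ({0, p, 2 * p} : Finset ℕ)
        · exact Or.inr hk
        · left
          rw [mem_insert, mem_insert, mem_singleton, not_or, not_or] at hk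
          have hpk : ¬ p ∣ k := by
            rintro ⟨t, ht⟩
            have ht3 : t < 3 := by
              by_contra hcon
              have : p * 3 ≤ p * t := Nat.mul_le_mul_left _ (by omega)
              omega
            interval_cases t <;> omega
          have e1 : 2 * p * k + 1 = 2 * k * p + 1 := by ring
          rw [e1] at a3 a4 a5
          refine ⟨a1, ⟨by omega, a2, hpk⟩, a3, a4, fun r hr hrd => lt_of_le_of_lt ?_ (a5 r hr hrd)⟩
          apply Real.rpow_le_rpow (by positivity) _ hη.le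
          exact_mod_cast (by omega : p ≤ X))
      have h6 : ({0, p, 2 * p} : Finset ℕ).card ≤ 3 := card_le_three
      have h7 : (cnt b (dfa S) X (fun k => Almost R ((X : ℝ) ^ η) (2 * p * k + 1)) : ℝ) ≤
          (Set.ncard {k : ℕ | k ∈ autoSet b (dfa S) ∧ (1 ≤ k ∧ k < X ∧ ¬ p ∣ k) ∧ Almost R ((p : ℝ) ^ η) (2 * k * p + 1)} : ℝ) + 3 := by
        have := h5.trans (Nat.add_le_add_left h6 _)
        exact_mod_cast this
      obtain ⟨Y, hY⟩ : ∃ Y : ℝ, Y = c * x / Real.log X := ⟨_, rfl⟩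
      rw [← hY] at h4
      have h8 : Y ≤ c * x * ra / Real.log X := by
        rw [hY]
        apply div_le_div_of_nonneg_right _ hl0.le
        exact le_mul_of_one_le_right (by positivity) hra1
      have h9 : c / 4 * x / Real.log p ≤ Y / 2 := by
        rw [hY]
        calc c / 4 * x / Real.log p = (c * x) / (2 * Real.log p) / 2 := by
              field_simp
              ring
          _ ≤ (c * x) / Real.log X / 2 := by
              apply div_le_div_of_nonneg_right _ (by norm_num)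
              exact div_le_div_of_nonneg_left (by positivity) hl0 hl2
      linarith

end Pool.Agent.Results.MP_2f88e5_nt.DigitMultipliers
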