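import Pool.Agent.Run7.h414.PM.Lk

set_option autoImplicit false

/-!
# Members `2 k p + 1` with very small `k`, for ALL large `p`: random models, and randomly displaced primes

We replace the primes by a random set `S` and show that almost surely, for ALL large integers `p` (prime or not) and ALL `H`
with `(log p)^A ≤ H ≤ 2 p + 1`, the number of the `k ≤ H` with `p ∤ k` and `2 k p + 1 ∈ S` is asymptotic to its expected value,
which is at least `H / (log p)^A`. So the question has a positive answer for all large `p`, with `k ≤ (log p)^A + 1`. This holds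
for
(1) every sequential random model of the primes with a sieve `z m ≤ C₀ log log m`: the multiples of the primes `q ≤ z m`
are forbidden for `m`, and every other `m` is accepted with a conditional probability asymptotic to
`∏_{q ≤ z m} (1 - 1/q)⁻¹ / log m`, the decisions being allowed to depend on each other in an arbitrary way; and
(2) the perturbed primes: the `m` for which the true number `m + J_m w_m` is prime, `w_m` the product of the primes up to
`z m`, and the `J_m` independent and uniformly distributed on `{0, …, Q m - 1}`, `Q m w_m` lying between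
`m / (log m)^C` and `m`. Note that `m + J_m w_m` has the same residue as `m` modulo all primes `q ≤ z m`.
-/

namespace Pool.Agent.Results.MP_2f88e5_nt.ModelsAndPerturbedPrimes

open Filter MeasureTheory ProbabilityTheory
open scoped Topology

/-- No prime `q ≤ z m` divides `m`. -/
def Sieved (z : ℕ → ℕ) (m : ℕ) : Prop := ∀ q, q.Prime → q ≤ z m → ¬ q ∣ m

/-- `V x = ∏_{q ≤ x, q prime} (1 - 1/q)⁻¹`. -/
noncomputable def V (x : ℕ) : ℝ := ∏ q ∈ (Finset.Icc 1 x).filter Nat.Prime, (1 - (q : ℝ)⁻¹)⁻¹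

open Classical in
/-- The density of the model at `m`. -/
noncomputable def rho (z : ℕ → ℕ) (m : ℕ) : ℝ := if Sieved z m then V (z m) / Real.log m else 0

open Classical in
/-- The number of the `k` with `1 ≤ k ≤ H`, `p ∤ k` and `2 k p + 1 ∈ S`. -/
noncomputable def R (S : Set ℕ) (p H : ℕ) : ℕ :=
  ((Finset.Icc 1 H).filter (fun k => ¬ p ∣ k ∧ 2 * k * p + 1 ∈ S)).card

/-- The expected number: the sum of `rho (2 k p + 1)` over the `k` with `1 ≤ k ≤ H` and `p ∤ k`. -/
noncomputable def E (z : ℕ → ℕ) (p H : ℕ) : ℝ :=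
  ∑ k ∈ (Finset.Icc 1 H).filter (fun k => ¬ p ∣ k), rho z (2 * k * p + 1)

/-- The law: for every `η > 0` and all large `p`, for all `H` with `(log p)^(2 C₀ + 5) ≤ H ≤ 2 p + 1`, `|R - E| ≤ η E`; and
`R ≥ H / (2 (log p)^(2 C₀ + 2))` for all large `p` and these `H`. -/
def Law (C₀ : ℕ) (z : ℕ → ℕ) (S : Set ℕ) : Prop :=
  (∀ η : ℝ, 0 < η → ∀ᶠ p : ℕ in atTop, ∀ H : ℕ, Real.log p ^ (2 * C₀ + 5) ≤ H → H ≤ 2 * p + 1 →
    |(R S p H : ℝ) - E z p H| ≤ η * E z p H) ∧
  ∀ᶠ p : ℕ in atTop, ∀ H : ℕ, Real.log p ^ (2 * C₀ + 5) ≤ H → H ≤ 2 * p + 1 →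
    (H : ℝ) / (2 * Real.log p ^ (2 * C₀ + 2)) ≤ R S p H

/-- A sequential random model of the primes with the sieve `z`: the event `A m` (that `m` belongs to the random set) is
decided at time `m`; it is empty if some prime `q ≤ z m` divides `m`; and almost surely the conditional probability of
`A (m + 1)` given the information up to time `m` is asymptotic to `V (z (m + 1)) / log m` along the `m` for which `m + 1` has
no prime factor `q ≤ z (m + 1)`. -/
structure Model {Ω : Type} [m0 : MeasurableSpace Ω] (μ : Measure Ω) (ℱ : Filtration ℕ m0) (z : ℕ → ℕ) (A : ℕ → Set Ω) : Prop where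
  adapted : ∀ m, MeasurableSet[ℱ m] (A m)
  sieved : ∀ m, ¬ Sieved z m → A m = ∅
  density : ∀ᵐ ω ∂μ, Tendsto
    (fun m : ℕ => (μ[(A (m + 1)).indicator (fun _ => (1 : ℝ)) | ℱ m]) ω * Real.log m / V (z (m + 1)))
    (atTop ⊓ 𝓟 {m : ℕ | Sieved z (m + 1)}) (𝓝 1)

/-- The random variables `J m` are independent, and `J m` is uniformly distributed on `{0, …, Q m - 1}`. -/
structure IndependentUniform {Ω : Type} [MeasurableSpace Ω] (μ : Measure Ω) (Q : ℕ → ℕ) (J : ℕ → Ω → ℕ) : Prop where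
  measurable : ∀ m, Measurable (J m)
  independent : iIndepFun J μ
  uniform : ∀ m, 0 < Q m ∧ ∀ j < Q m, μ.real {ω | J m ω = j} = 1 / Q m

/-- The perturbed primes: the `m` for which `m + j_m w_m` is a prime larger than `z m`, where `w_m` is the product of
the primes up to `z m`. -/
def Perturbed (z : ℕ → ℕ) (j : ℕ → ℕ) : Set ℕ :=
  {m | (m + j m * primorial (z m)).Prime ∧ z m < m + j m * primorial (z m)}

/-- **All large `p`.** Let `z m ≤ C₀ log log m` for large `m`. For all large `p` and `(log p)^(2 C₀ + 5) ≤ H ≤ 2 p + 1` the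
expected number is at least `H / (log p)^(2 C₀ + 2)`. The law holds almost surely (1) for every sequential random model of
the primes with the sieve `z`, and (2) for the perturbed primes, if `m / (log m)^C ≤ Q m w_m ≤ m` for large `m`. -/
theorem result (C₀ : ℕ) (z : ℕ → ℕ) (hz : ∀ᶠ m : ℕ in atTop, (z m : ℝ) ≤ C₀ * Real.log (Real.log m)) :
    (∀ᶠ p : ℕ in atTop, ∀ H : ℕ, Real.log p ^ (2 * C₀ + 5) ≤ H → H ≤ 2 * p + 1 →
      (H : ℝ) / Real.log p ^ (2 * C₀ + 2) ≤ E z p H) ∧
    (∀ (Ω : Type) (m0 : MeasurableSpace Ω) (μ : Measure Ω) (_ : IsProbabilityMeasure μ) (ℱ : Filtration ℕ m0)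
      (A : ℕ → Set Ω), Model μ ℱ z A → ∀ᵐ ω ∂μ, Law C₀ z {m | ω ∈ A m}) ∧
    (∀ (C : ℕ) (Q : ℕ → ℕ),
      (∀ᶠ m : ℕ in atTop, (m : ℝ) / Real.log m ^ C ≤ Q m * primorial (z m) ∧ Q m * primorial (z m) ≤ m) →
      ∀ (Ω : Type) (_ : MeasurableSpace Ω) (μ : Measure Ω) (_ : IsProbabilityMeasure μ) (J : ℕ → Ω → ℕ),
        IndependentUniform μ Q J → ∀ᵐ ω ∂μ, Law C₀ z (Perturbed z (fun m => J m ω))) := by
  classical
  have hE := Pool.Agent.Run7.h414.PM.Lk.E_low C₀ z hz
  have hV : ∀ᶠ m : ℕ in atTop, Pool.Agent.N233.GM.W (z m) / Real.log m < 1 := by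
    obtain ⟨δ, hδ, h⟩ := Pool.Agent.N233.GM.W_small
    apply h z
    have h0 := (isLittleO_log_rpow_atTop hδ).def (c := 1 / ((C₀ : ℝ) + 1)) (by positivity)
    filter_upwards [hz, tendsto_natCast_atTop_atTop.eventually h0, Pool.Agent.Run7.h414.PM.Lk.logt'.eventually_ge_atTop 1,
      eventually_ge_atTop 1] with n h1 h2 h3 h4
    have hn : (0 : ℝ) < (n : ℝ) ^ δ := Real.rpow_pos_of_pos (by exact_mod_cast h4) _
    have hC : (0 : ℝ) ≤ C₀ := Nat.cast_nonneg C₀
    rw [Real.norm_of_nonneg (by linarith), Real.norm_of_nonneg hn.le] at h2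
    have h5 : Real.log (Real.log n) ≤ Real.log n := (Real.log_le_sub_one_of_pos (by linarith)).trans (by linarith)
    have h6 : (C₀ : ℝ) * Real.log (Real.log n) ≤ (C₀ + 1) * Real.log n := by nlinarith
    have h7 : ((C₀ : ℝ) + 1) * Real.log n ≤ (C₀ + 1) * (1 / (C₀ + 1) * (n : ℝ) ^ δ) := mul_le_mul_of_nonneg_left h2 (by linarith)
    have h8 : ((C₀ : ℝ) + 1) * (1 / (C₀ + 1) * (n : ℝ) ^ δ) = (n : ℝ) ^ δ := by field_simp
    linarith
  have key : ∀ (Ω : Type) (m0 : MeasurableSpace Ω) (μ : Measure Ω) (_ : IsProbabilityMeasure μ) (ℱ : Filtration ℕ m0)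
      (A : ℕ → Set Ω), Model μ ℱ z A → ∀ᵐ ω ∂μ, Law C₀ z {m | ω ∈ A m} := by
    intro Ω m0 μ hμ ℱ A hA
    have h := Pool.Agent.Run7.h414.PM.Lk.model (μ := μ) (ℱ := ℱ) (A := A) z hV hA.adapted hA.sieved hA.density
    filter_upwards [h] with ω hω
    have hR : ∀ p H : ℕ, (R {m | ω ∈ A m} p H : ℝ) =
        ∑ k ∈ Pool.Agent.Run7.h414.PM.Lk.KH p H, Pool.Agent.R528.RM.In A (2 * k * p + 1) ω := by
      intro p H
      unfold R Pool.Agent.Run7.h414.PM.Lk.KH
      rw [← Finset.filter_filter, Finset.card_filter]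
      push_cast
      refine Finset.sum_congr rfl fun k _ => ?_
      unfold Pool.Agent.R528.RM.In
      by_cases h : ω ∈ A (2 * k * p + 1)
      · simp [h]
      · simp [h]
    have hf := Pool.Agent.Run7.h414.PM.Lk.final C₀ (fun p H => (R {m | ω ∈ A m} p H : ℝ)) (fun p H => E z p H) hE (by
        intro η' hη'
        obtain ⟨K, hK0, hK⟩ := hω η' hη'
        refine ⟨K, hK0, ?_⟩
        filter_upwards [hK] with p hp H h1
        rw [hR]
        exact hp H h1)
    refine ⟨hf, ?_⟩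
    filter_upwards [hf (1 / 2) (by norm_num), hE] with p h1 h2 H h3 h4
    have g1 := (abs_le.1 (h1 H h3 h4)).1
    have g2 : (H : ℝ) / Real.log p ^ (2 * C₀ + 2) ≤ E z p H := h2 H h3 h4
    have g3 : (H : ℝ) / (2 * Real.log p ^ (2 * C₀ + 2)) = 1 / 2 * (H / Real.log p ^ (2 * C₀ + 2)) := by
      rw [mul_comm, ← div_div]
      ring
    rw [g3]
    linarith
  refine ⟨hE, key, ?_⟩
  intro C Q hQ Ω m0 μ hμ J hJ
  have hz' : ∀ᶠ n : ℕ in atTop, (z n : ℝ) ≤ (C + C₀ : ℕ) * Real.log (Real.log n) := by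
    filter_upwards [hz, Pool.Agent.Run7.h414.PM.Lk.logt'.eventually_ge_atTop 1] with n h1 h2
    have h4 : 0 ≤ Real.log (Real.log n) := Real.log_nonneg h2
    have h5 : (0 : ℝ) ≤ C := Nat.cast_nonneg C
    push_cast
    nlinarith
  have hQ' : ∀ᶠ n : ℕ in atTop, (n : ℝ) / Real.log n ^ (C + C₀) ≤ Q n * primorial (z n) ∧ Q n * primorial (z n) ≤ n := by
    filter_upwards [hQ, Pool.Agent.Run7.h414.PM.Lk.logt'.eventually_ge_atTop 1] with n h1 h2
    refine ⟨le_trans ?_ h1.1, h1.2⟩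
    exact div_le_div_of_nonneg_left (Nat.cast_nonneg n) (pow_pos (by linarith) C) (pow_le_pow_right₀ h2 (Nat.le_add_right C C₀))
  obtain ⟨ℱ, g1, g2, g3⟩ := Pool.Agent.Run7.h414.PM.pert z Q (C + C₀) hz' hQ' J ⟨hJ.measurable, hJ.independent, hJ.uniform⟩
  exact key Ω m0 μ hμ ℱ (Pool.Agent.Run7.h414.PM.PA z J) ⟨g1, g2, g3⟩

end Pool.Agent.Results.MP_2f88e5_nt.ModelsAndPerturbedPrimes
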