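import Pool.Agent.Run7.h675.GP.A

set_option autoImplicit false

/-!
# MP_2f88e5_nt, Q1 (partial): the primes `p` with many primes `2 k p + 1`, `k ≤ p ^ (1 - δ)`

For constants `δ, c > 0` the set of primes `p` for which some `K` between `p ^ δ` and
`p ^ (1 - δ)` has at least `c K / log K` values `k ≤ K` with `2 k p + 1` prime has reciprocal sum at
least `c` over every window `(Y, Y ^ 2]` with `Y` large, so it has positive lower logarithmic density
among the primes; Q1 holds for every odd prime of this set.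
-/

namespace Pool.Agent.Results.MP_2f88e5_nt.PositiveProportion

open Finset

/-- For some `K` between `p ^ δ` and `p ^ (1 - δ)` at least `c K / log K` of the numbers `2 k p + 1`,
`1 ≤ k ≤ K`, are prime. -/
def Good (δ c : ℝ) (p : ℕ) : Prop :=
  ∃ K : ℕ, (p : ℝ) ^ δ ≤ K ∧ (K : ℝ) ≤ (p : ℝ) ^ (1 - δ) ∧
    c * (K / Real.log K) ≤ (((Icc 1 K).filter fun k => (2 * k * p + 1).Prime).card : ℝ)

lemma admissible {δ c : ℝ} (hδ : 0 < δ) (hc : 0 < c) {p : ℕ} (hp : p.Prime)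
    (h : Good δ c p) : ∃ k : ℕ, 1 ≤ k ∧ (k : ℝ) ≤ (p : ℝ) ^ (1 - δ) ∧ k < 2 * (p + 1) ∧ ¬ p ∣ k ∧
      (2 * k * p + 1).Prime := by
  obtain ⟨K, h1, h2, h3⟩ := h
  have hp1 : (1 : ℝ) < p := by exact_mod_cast hp.one_lt
  have hK1 : (1 : ℝ) < K := (Real.one_lt_rpow hp1 hδ).trans_le h1
  have hlog : 0 < Real.log K := Real.log_pos hK1
  have hpos : 0 < c * (K / Real.log K) := by positivity
  have hcard : 0 < ((Icc 1 K).filter fun k => (2 * k * p + 1).Prime).card := by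
    have := hpos.trans_le h3
    exact_mod_cast this
  obtain ⟨k, hk⟩ := card_pos.1 hcard
  rw [mem_filter, mem_Icc] at hk
  obtain ⟨⟨hk1, hk2⟩, hk3⟩ := hk
  have hkK : (k : ℝ) ≤ K := by exact_mod_cast hk2
  have hkp : k < p := by
    have h4 : (p : ℝ) ^ (1 - δ) < (p : ℝ) ^ (1 : ℝ) := Real.rpow_lt_rpow_of_exponent_lt hp1 (by linarith)
    rw [Real.rpow_one] at h4
    have h5 : (k : ℝ) < p := by linarith
    exact_mod_cast h5
  refine ⟨k, hk1, hkK.trans h2, by omega, fun hd => ?_, hk3⟩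
  have := Nat.le_of_dvd (by omega) hd
  omega

open Classical in
lemma chain {δ c : ℝ} {Y₀ : ℕ} (hY₀ : 2 ≤ Y₀)
    (hw : ∀ Y : ℕ, Y₀ ≤ Y →
      c ≤ ∑ p ∈ (Ioc Y (Y ^ 2)).filter (fun p => p.Prime ∧ Good δ c p), (1 / (p : ℝ))) (n : ℕ) :
    (n : ℝ) * c ≤ ∑ p ∈ (Ioc Y₀ (Y₀ ^ 2 ^ n)).filter (fun p => p.Prime ∧ Good δ c p),
      (1 / (p : ℝ)) := by
  induction n with
  | zero => simp
  | succ n ih =>
    have hle : Y₀ ≤ Y₀ ^ 2 ^ n := Nat.le_self_pow (by positivity) _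
    have hle2 : Y₀ ^ 2 ^ n ≤ Y₀ ^ 2 ^ (n + 1) :=
      Nat.pow_le_pow_right (by omega) (Nat.pow_le_pow_right (by norm_num) (by omega))
    have hsq : (Y₀ ^ 2 ^ n) ^ 2 = Y₀ ^ 2 ^ (n + 1) := by
      rw [← pow_mul, pow_succ]
    have h1 := hw _ hle
    rw [hsq] at h1
    have h2 : (Ioc Y₀ (Y₀ ^ 2 ^ (n + 1))).filter (fun p => p.Prime ∧ Good δ c p) =
        (Ioc Y₀ (Y₀ ^ 2 ^ n)).filter (fun p => p.Prime ∧ Good δ c p) ∪
        (Ioc (Y₀ ^ 2 ^ n) (Y₀ ^ 2 ^ (n + 1))).filter (fun p => p.Prime ∧ Good δ c p) := by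
      rw [← filter_union, Ioc_union_Ioc_eq_Ioc hle hle2]
    rw [h2, sum_union]
    · push_cast
      linarith
    · rw [disjoint_left]
      intro p h3 h4
      rw [mem_filter, mem_Ioc] at h3 h4
      omega

/-- There are `δ, c, c' > 0` such that, writing `p` good if for some `K` between `p ^ δ` and
`p ^ (1 - δ)` at least `c K / log K` of the numbers `2 k p + 1`, `k ≤ K`, are prime: the reciprocals of the
good primes in `(Y, Y ^ 2]` sum to at least `c` for all large `Y`; those up to `X` sum to at least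
`c' log log X` for all large `X`; every good odd prime has an admissible `k ≤ p ^ (1 - δ)` with
`2 k p + 1` prime. -/
theorem result : ∃ δ c c' : ℝ, 0 < δ ∧ δ < 1 / 2 ∧ 0 < c ∧ 0 < c' ∧
    (∃ Y₀ : ℕ, ∀ Y : ℕ, Y₀ ≤ Y → ∃ S : Finset ℕ,
      (∀ p ∈ S, p.Prime ∧ Y < p ∧ p ≤ Y ^ 2 ∧ Good δ c p) ∧ c ≤ ∑ p ∈ S, (1 / (p : ℝ))) ∧
    (∃ X₀ : ℕ, ∀ X : ℕ, X₀ ≤ X → ∃ S : Finset ℕ,
      (∀ p ∈ S, p.Prime ∧ p ≤ X ∧ Good δ c p) ∧
        c' * Real.log (Real.log X) ≤ ∑ p ∈ S, (1 / (p : ℝ))) ∧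
    (∀ p : ℕ, p.Prime → p ≠ 2 → Good δ c p →
      ∃ k : ℕ, 1 ≤ k ∧ (k : ℝ) ≤ (p : ℝ) ^ (1 - δ) ∧ k < 2 * (p + 1) ∧ ¬ p ∣ k ∧
        (2 * k * p + 1).Prime) := by
  classical
  obtain ⟨δ, c, hδ, hδ2, hc, Y₀, hY₀, hw⟩ := Run7.h675.GP.windows
  have hw' : ∀ Y : ℕ, Y₀ ≤ Y →
      c ≤ ∑ p ∈ (Ioc Y (Y ^ 2)).filter (fun p => p.Prime ∧ Good δ c p), (1 / (p : ℝ)) := by
    intro Y hY
    refine (hw Y hY).trans (le_of_eq ?_)
    apply sum_congr _ (fun _ _ => rfl)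
    ext p
    simp only [mem_filter]
    exact Iff.rfl
  refine ⟨δ, c, c / 2, hδ, hδ2, hc, by positivity, ⟨Y₀, fun Y hY => ?_⟩, ?_,
    fun p hp _ hg => admissible hδ hc hp hg⟩
  · refine ⟨(Ioc Y (Y ^ 2)).filter (fun p => p.Prime ∧ Good δ c p), fun p hp => ?_, hw' Y hY⟩
    rw [mem_filter, mem_Ioc] at hp
    exact ⟨hp.2.1, hp.1.1, hp.1.2, hp.2.2⟩
  · have hY1 : (1 : ℝ) < Y₀ := by exact_mod_cast (by omega : 1 < Y₀)
    have hL0 : 0 < Real.log Y₀ := Real.log_pos hY1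
    have hev : ∀ᶠ X : ℕ in Filter.atTop,
        2 * (Real.log (Real.log Y₀) + 1) ≤ Real.log (Real.log (X : ℝ)) :=
      ((Real.tendsto_log_atTop.comp Real.tendsto_log_atTop).comp
        tendsto_natCast_atTop_atTop).eventually_ge_atTop _
    obtain ⟨X₁, hX₁⟩ := Filter.eventually_atTop.1 hev
    refine ⟨max X₁ Y₀, fun X hX => ?_⟩
    have hXY : Y₀ ≤ X := (le_max_right _ _).trans hX
    have hX1 := hX₁ X ((le_max_left _ _).trans hX)
    have hex : ∃ m : ℕ, X < Y₀ ^ 2 ^ m := by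
      refine ⟨X, ?_⟩
      calc X < 2 ^ X := Nat.lt_two_pow_self
        _ ≤ 2 ^ 2 ^ X := Nat.pow_le_pow_right (by norm_num) Nat.lt_two_pow_self.le
        _ ≤ Y₀ ^ 2 ^ X := Nat.pow_le_pow_left hY₀ _
    obtain ⟨m, hm1, hm2⟩ : ∃ m : ℕ, X < Y₀ ^ 2 ^ (m + 1) ∧ Y₀ ^ 2 ^ m ≤ X := by
      have h1 := Nat.find_spec hex
      have h2 : Nat.find hex ≠ 0 := by
        intro h0
        rw [h0] at h1
        simp at h1
        omega
      obtain ⟨m, hm⟩ := Nat.exists_eq_succ_of_ne_zero h2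
      refine ⟨m, ?_, ?_⟩
      · rw [hm] at h1
        exact h1
      · have h3 := Nat.find_min hex (m := m) (by omega)
        exact not_lt.1 h3
    have hXr : (1 : ℝ) < X := by exact_mod_cast (by omega : 1 < X)
    have hLX : 0 < Real.log X := Real.log_pos hXr
    have h4 : Real.log X ≤ 2 ^ (m + 1) * Real.log Y₀ := by
      have h5 : Real.log X ≤ Real.log ((Y₀ : ℝ) ^ 2 ^ (m + 1)) := by
        apply Real.log_le_log (by linarith)
        exact_mod_cast hm1.le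
      rw [Real.log_pow] at h5
      push_cast at h5
      exact h5
    have h6 : Real.log (Real.log X) ≤ (m + 1) * Real.log 2 + Real.log (Real.log Y₀) := by
      have h7 : Real.log (Real.log X) ≤ Real.log (2 ^ (m + 1) * Real.log Y₀) :=
        Real.log_le_log hLX h4
      rw [Real.log_mul (by positivity) hL0.ne', Real.log_pow] at h7
      push_cast at h7
      exact h7
    have h8 : Real.log 2 < 1 := by
      have := Real.log_two_lt_d9
      linarith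
    have h9 : ((m : ℝ) + 1) * Real.log 2 ≤ (m : ℝ) + 1 := by
      have hm0 : (0 : ℝ) ≤ (m : ℝ) + 1 := by positivity
      nlinarith
    have h10 : Real.log (Real.log X) / 2 ≤ m := by linarith
    have h11 := chain hY₀ hw' m
    refine ⟨(Ioc Y₀ (Y₀ ^ 2 ^ m)).filter (fun p => p.Prime ∧ Good δ c p), fun p hp => ?_, ?_⟩
    · rw [mem_filter, mem_Ioc] at hp
      exact ⟨hp.2.1, hp.1.2.trans hm2, hp.2.2⟩
    · calc c / 2 * Real.log (Real.log X) = c * (Real.log (Real.log X) / 2) := by ring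
        _ ≤ c * m := by gcongr
        _ = m * c := by ring
        _ ≤ _ := h11

end Pool.Agent.Results.MP_2f88e5_nt.PositiveProportion
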