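import Pool.Agent.Run7.h90.AU.Shift

set_option autoImplicit false

/-!
# The numbers `2 k r + 1` with `k` in thin families of residues modulo a prime

Let `p` be a large prime and let `(v_i)`, `i ∈ s`, be a family of residues modulo `p` whose exponential sums
`∑ e(ξ v_i / p)`, `ξ ≠ 0`, are at most `p ^ (-ε) |s|`; the family may be very thin. Examples: the values of a sparse
polynomial of arbitrary degree on a subgroup of order `p ^ η`, the values `c_1 g_1 ^ n + ... + c_k g_k ^ n`, `n < N`,
`N ≥ p ^ η`. The theorem is about the integers `n` congruent to a member of the family modulo `p` in an interval of length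
`L ≥ p ^ (1 - δ)`. Here the integers are denoted by `k`.
Uniformly in all odd primes `r ≤ p ^ A / 2`, the numbers `2 k r + 1` without prime factors up to `z` have the frequency
`e ^ (-γ) 2 r / ((r - 1) log z)`, and the numbers `2 k r + 1` which are products of a bounded number of primes have the
right order, in every interval of `k` of length `L ≥ p ^ (1 - δ)`; for `M + L < r` these `k` are admissible for `r` in
the sense of the problem.

Proof: bound of Bourgain, Glibichuk and Konyagin in the form for recurrences and monomials (`Agent/Run7/h823/BK9`);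
equidistribution in the residue classes modulo all integers up to `p ^ δ` and the fundamental lemma of the sieve
(`Agent/Run7/h90/AU`).
-/

namespace Pool.Agent.Results.MP_2f88e5_nt.SmallMultipliersInSparseFamilies

open Finset Filter Topology
open Pool.Agent.Run7.h90.AU (number Rough Almost SmallSums SparseSmall RecurrencesSmall)

/-- `r` is an odd prime. -/
def Good (r : ℕ) : Prop := r.Prime ∧ r ≠ 2

/-- The number `2 k r + 1` has the property `P`. -/
def Value (r : ℕ) (P : ℕ → Prop) (k : ℕ) : Prop := P (2 * k * r + 1)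

/-- The constant. -/
noncomputable def const (r : ℕ) : ℝ := 2 * ((r : ℝ) / ((r : ℝ) - 1))

theorem om_eq (r : ℕ) (_ : Good r) (q : ℕ) (hq : q.Prime) :
    Pool.Agent.Run7.h90.AU.om (fun _ : Fin 1 => (1 : ℤ)) (fun _ : Fin 1 => 2 * (r : ℤ)) q =
      if q ∣ 2 * r then 0 else 1 := by
  have hfact : Fact q.Prime := ⟨hq⟩
  split_ifs with hd
  · unfold Pool.Agent.Run7.h90.AU.om
    rw [card_eq_zero, filter_eq_empty_iff]
    intro n _ h
    rw [Fin.prod_univ_one] at h
    have h1 : (q : ℤ) ∣ 2 * (r : ℤ) * (n : ℤ) := by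
      have : (q : ℤ) ∣ 2 * (r : ℤ) := by exact_mod_cast hd
      exact this.mul_right _
    have h2 : (q : ℤ) ∣ 1 := (Int.dvd_add_left h1).1 h
    have h3 : q ∣ 1 := by exact_mod_cast h2
    exact hq.one_lt.ne' (Nat.dvd_one.1 h3)
  · have h2r : ((2 * r : ℕ) : ZMod q) ≠ 0 := by
      rw [Ne, ZMod.natCast_eq_zero_iff]
      exact hd
    have := Pool.Agent.Run7.h90.AU.om_eq_image (fun _ : Fin 1 => (1 : ℤ)) (fun _ : Fin 1 => 2 * (r : ℤ)) q
      (fun x => ((2 * r : ℕ) : ZMod q) * x) (mulLeft_bijective₀ _ h2r) {-1} (by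
        intro n
        rw [Pool.Agent.Run7.h90.AU.dvd_prod_iff, mem_singleton]
        constructor
        · rintro ⟨_, h⟩
          push_cast at h ⊢
          linear_combination h
        · intro h
          refine ⟨0, ?_⟩
          push_cast at h ⊢
          linear_combination h)
    rw [this, card_singleton]

theorem isPat : Pool.Agent.Run7.h90.AU.Pat 1 Value (fun r _ => const r) (fun r => 2 * (r : ℝ)) Good
    (fun _ _ => 1) (fun r _ => 2 * (r : ℤ)) where
  nd := by
    intro r hr
    refine ⟨fun _ => ?_, fun i j hij _ => hij (Subsingleton.elim i j), fun l hl => ?_⟩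
    · have := hr.1.pos
      have h1 : (0 : ℤ) < 2 * (r : ℤ) := by positivity
      exact h1.ne'
    · apply Pool.Agent.Run7.h90.AU.adm_of_om_lt
      rw [om_eq r hr l hl]
      have := hl.two_le
      split_ifs <;> omega
  sa := by
    intro r hr _
    have h1 : (2 : ℝ) ≤ r := by exact_mod_cast hr.1.two_le
    simp only [Int.cast_one, abs_one]
    linarith
  sd := by
    intro r hr _
    push_cast
    rw [abs_of_nonneg (by positivity)]
  pat := by
    intro r hr P n hn
    unfold Value
    rw [Fin.forall_fin_one]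
    have : ((1 : ℤ) + 2 * (r : ℤ) * (n : ℤ)) = ((2 * n * r + 1 : ℕ) : ℤ) := by push_cast; ring
    rw [this, Int.natAbs_natCast]
  con := by
    intro r hr
    filter_upwards [eventually_ge_atTop (r + 2)] with z hz
    have hr2 : 2 ≤ r := hr.1.two_le
    have hsub : ({2, r} : Finset ℕ) ⊆ (range (z + 1)).filter Nat.Prime := by
      intro x hx
      rw [mem_insert, mem_singleton] at hx
      rw [mem_filter, mem_range]
      rcases hx with rfl | rfl
      · exact ⟨by omega, Nat.prime_two⟩
      · exact ⟨by omega, hr.1⟩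
    unfold Pool.Agent.Run7.h90.AU.psing const
    rw [← prod_subset hsub]
    · rw [prod_pair (Ne.symm hr.2), om_eq r hr 2 Nat.prime_two, om_eq r hr r hr.1, if_pos (dvd_mul_right _ _),
        if_pos (dvd_mul_left _ _)]
      have h1 : (2 : ℝ) ≤ r := by exact_mod_cast hr2
      have h3 : (r : ℝ) ≠ 0 := by linarith
      have h4 : (r : ℝ) - 1 ≠ 0 := by linarith
      have e1 : (1 : ℝ) - 1 / r = (r - 1) / r := by field_simp
      push_cast
      rw [zero_div, zero_div, pow_one, pow_one, e1]
      norm_num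
    · intro x hx hx2
      rw [mem_filter] at hx
      rw [om_eq r hr x hx.2, if_neg]
      · have h1 : (2 : ℝ) ≤ x := by exact_mod_cast hx.2.two_le
        have h4 : (1 : ℝ) - 1 / x ≠ 0 := by
          have : (1 : ℝ) / x ≤ 1 / 2 := one_div_le_one_div_of_le (by norm_num) h1
          linarith
        push_cast
        rw [pow_one, div_self h4]
      · intro hd
        apply hx2
        rw [mem_insert, mem_singleton]
        rcases hx.2.dvd_mul.1 hd with h1 | h1
        · exact Or.inl ((Nat.prime_dvd_prime_iff_eq hx.2 Nat.prime_two).1 h1)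
        · exact Or.inr ((Nat.prime_dvd_prime_iff_eq hx.2 hr.1).1 h1)

theorem result :
    (∀ ε A : ℝ, 0 < ε → 1 ≤ A → ∃ δ : ℝ, 0 < δ ∧ ∀ b : ℕ, 1 ≤ b → ∃ P₀ : ℝ, ∀ (p : ℕ) [Fact p.Prime], P₀ ≤ p →
      ∀ (ι : Type) (s : Finset ι) (v : ι → ZMod p), SmallSums p ε s v →
      ∀ r : ℕ, r.Prime → r ≠ 2 → 2 * (r : ℝ) ≤ (p : ℝ) ^ A →
      ∀ M L z : ℕ, (p : ℝ) ^ (1 - δ) ≤ L → Real.log p ≤ z → (z : ℝ) ≤ (p : ℝ) ^ (δ / b) →
      |(number p s v M L (fun k => Rough z (2 * k * r + 1)) : ℝ) -
        Real.exp (-Real.eulerMascheroniConstant) * (const r * (s.card * ((L : ℝ) / p)) / Real.log z)| ≤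
      (1 / 2) ^ b * (Real.exp (-Real.eulerMascheroniConstant) *
        (const r * (s.card * ((L : ℝ) / p)) / Real.log z))) ∧
    (∀ ε A : ℝ, 0 < ε → 1 ≤ A → ∃ (t : ℕ) (δ K : ℝ), 0 < δ ∧ 0 < K ∧ ∃ P₀ : ℝ,
      ∀ (p : ℕ) [Fact p.Prime], P₀ ≤ p →
      ∀ (ι : Type) (s : Finset ι) (v : ι → ZMod p), SmallSums p ε s v →
      ∀ r : ℕ, r.Prime → r ≠ 2 → 2 * (r : ℝ) ≤ (p : ℝ) ^ A →
      ∀ M L : ℕ, (M + L : ℝ) ≤ (p : ℝ) ^ A → (p : ℝ) ^ (1 - δ) ≤ L →
      const r * (s.card * ((L : ℝ) / p)) / Real.log p ≤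
        K * (number p s v M L (fun k => Almost t ((p : ℝ) ^ δ) (2 * k * r + 1)) : ℝ) ∧
      (number p s v M L (fun k => (2 * k * r + 1).Prime) : ℝ) ≤
        K * (const r * (s.card * ((L : ℝ) / p)) / Real.log p)) ∧
    SparseSmall ∧ RecurrencesSmall := by
  refine ⟨?_, ?_, Pool.Agent.Run7.h90.AU.sparse_small, Pool.Agent.Run7.h90.AU.rec_small⟩
  · intro ε A hε hA
    obtain ⟨δ, hδ, H⟩ := isPat.formula ε A hε hA
    refine ⟨δ, hδ, fun b hb => ?_⟩
    obtain ⟨P₀, H⟩ := H b hb
    refine ⟨P₀, ?_⟩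
    intro p hp hpP ι s v hv r hr hr2 hs M L z hL hz1 hz2
    obtain ⟨D, -, hl, H⟩ := H p hpP ι s v hv r ⟨hr, hr2⟩ hs
    have hD : D = const r := tendsto_nhds_unique hl tendsto_const_nhds
    have h := H M L z hL hz1 hz2
    rw [hD] at h
    simp only [Nat.cast_one, one_mul, pow_one] at h
    exact h
  · intro ε A hε hA
    obtain ⟨t, δ, K, hδ, hK, P₀, H⟩ := isPat.orders ε A hε hA
    refine ⟨t, δ, K, hδ, hK, P₀, ?_⟩
    intro p hp hpP ι s v hv r hr hr2 hs M L hM hL
    obtain ⟨D, -, hl, H⟩ := H p hpP ι s v hv r ⟨hr, hr2⟩ hs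
    have hD : D = const r := tendsto_nhds_unique hl tendsto_const_nhds
    have h := H M L hM hL
    rw [hD] at h
    simp only [pow_one] at h
    exact h

end Pool.Agent.Results.MP_2f88e5_nt.SmallMultipliersInSparseFamilies
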